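import Pool.Agent.H7.HD.Tools2

/-!
# MP_e37c09_lc, module XH: first step of the covering argument
-/

open Ordinal Cardinal Order Set
open scoped ZFSet

universe u

namespace Pool.Agent.H74.HD.XH

open _root_.HD

/-- a cofinal function -/
theorem cofinal_fun {α : Ordinal.{u}} (hα : 0 < α) : ∃ G : Ordinal.{u} → Ordinal.{u},
    (∀ a < α.cof.ord, G a < α) ∧ ∀ b < α, ∃ a < α.cof.ord, b ≤ G a := by
  obtain ⟨ι, f, hf, hι⟩ := exists_lsub_cof α
  have h1 : #(range f) ≤ Cardinal.lift.{u + 1} α.cof.ord.card := by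
    rw [Cardinal.card_ord, ← hι]
    have := Cardinal.mk_range_le_lift (f := f)
    rwa [Cardinal.lift_id'.{u, u + 1}] at this
  obtain ⟨e, he⟩ := cov_iff.2 h1
  classical
  refine ⟨fun a => if e a < α then e a else 0, fun a _ => ?_, fun b hb => ?_⟩
  · dsimp only
    split_ifs with h
    · exact h
    · exact hα
  · obtain ⟨i, hi⟩ : ∃ i, b ≤ f i := by
      by_contra hcon
      push Not at hcon
      have : lsub.{u, u} f ≤ b := lsub_le fun i => hcon i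
      rw [hf] at this
      exact absurd hb (not_lt.2 this)
    obtain ⟨a, ha, hae⟩ := he (f i) ⟨i, rfl⟩
    refine ⟨a, ha, ?_⟩
    have hlt : e a < α := by
      rw [hae, ← hf]
      exact lt_lsub f i
    dsimp only
    rw [if_pos hlt, hae]
    exact hi

/-- positivity of a fibre, as a predicate of sets -/
def PP (m r F i : ZFSet.{u}) : Prop :=
  m.IsOrdinal ∧ r.IsOrdinal ∧ Pos m.rank r.rank {b | ZFSet.pair b.toZFSet i ∈ F}

theorem loc_PP (h : T_LB.{u}) (a b c d : ℕ) : Loc.{u} fun v => PP (v a) (v b) (v c) (v d) :=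
  Loc.ren (P := fun v => (v 0).IsOrdinal ∧ (v 1).IsOrdinal ∧
    Pos (v 0).rank (v 1).rank {b | ZFSet.pair b.toZFSet (v 3) ∈ v 2}) h
    (fun n => if n = 0 then a else if n = 1 then b else if n = 2 then c else d)

/-- the statement to which elementarity is applied -/
def RR (r : ZFSet.{u}) (v : ℕ → ZFSet.{u}) : Prop :=
  (∃ t ∈ v 1, ∃ h ⊆ v 5, (∀ i ∈ v 2, PP (v 0) r (v 3) i → ∃ a ∈ t, ZFSet.pair a i ∈ h) ∧
    (∀ a ∈ t, ∀ i ∈ v 2, ∀ k ∈ v 2, ZFSet.pair a i ∈ h → ZFSet.pair a k ∈ h → i = k)) ∧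
  (∀ a ∈ v 1, ∀ i ∈ v 2, ZFSet.pair a i ∈ v 4 → PP (v 0) r (v 3) i)

theorem loc_RR (h : T_LB.{u}) : Loc.{u} fun v => RR (v 0) (fun n => v (n + 1)) := by
  refine Loc.and (Loc.exMem 2 (Loc.exSub 7 (Loc.and (Loc.allMem 5 ((loc_PP h 4 3 7 0).imp
    (Loc.exMem 2 (loc_pmem 0 1 2)))) (Loc.allMem 1 (Loc.allMem 6 (Loc.allMem 7
    ((loc_pmem 2 1 3).imp ((loc_pmem 2 0 3).imp (Loc.eq 1 0)))))))))
    (Loc.allMem 2 (Loc.allMem 4 ((loc_pmem 1 0 7).imp (loc_PP h 3 2 6 0))))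

theorem ds_pos (h : T_DA.{u}) {f : ZFSet.{u}} (hf : OD f) (μ ρ : Ordinal.{u}) :
    DS {i | Pos μ ρ (fib f i)} := by
  have h1 : DO fun w : ℕ → Ordinal.{u} =>
      Pos (w 1) (w 2) {a | ZFSet.pair a.toZFSet (w 0).toZFSet ∈ f} :=
    h 1 2 (fun a w => ZFSet.pair a.toZFSet (w 0).toZFSet ∈ f) hf.dr
  have h2 : DO fun w : ℕ → Ordinal.{u} => Pos (w 0) (w 1) (fib f (w 2)) :=
    DO.s3 (X := fun a b c => Pos b c (fib f a)) h1 2 0 1
  have h3 : DO fun w : ℕ → Ordinal.{u} => Pos μ (w 0) (fib f (w 1)) :=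
    DO.sub (R := fun x w => Pos x (w 0) (fib f (w 1))) μ h2
  exact DO.sub (R := fun x w => Pos μ x (fib f (w 0))) ρ h3

theorem xh_cof (hXF : T_XF.{u}) (hLB : T_LB.{u}) (hDA : T_DA.{u}) : T_XH.{u} := by
  intro δ η θ j M K γ f hS α hα hδα hαγ
  by_contra hcon
  push Not at hcon
  have he := hS.emb
  have hα0 : 0 < α := lt_of_le_of_lt bot_le hδα
  have hδη : δ < η := he.dlt
  have hαη : α < η := lt_of_le_of_lt hαγ hS.γη
  set ν := α.cof.ord with hν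
  have hνη : ν < η := hcon.trans hδη
  have hMη : M.ord < η := hS.mlt.trans hδη
  obtain ⟨G, hG1, hG2⟩ := cofinal_fun hα0
  -- the set of pairs
  set g : ZFSet.{u} := rs ν α fun a b => b = G a with hg
  have hgsub : g ⊆ ZFSet.prod ν.toZFSet α.toZFSet := by
    intro p hp
    obtain ⟨a, ha, b, hb, -, rfl⟩ := mem_rs.1 hp
    rw [ZFSet.pair_mem_prod, toZFSet_mem_toZFSet_iff, toZFSet_mem_toZFSet_iff]
    exact ⟨ha, hb⟩
  have hgη : g ∈ V_ η := mem_V_of_sub hgsub (he.gd.prod (Gd.ord.2 hνη) (Gd.ord.2 hαη))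
  have hgfun : ZFSet.IsFunc ν.toZFSet α.toZFSet g := by
    refine ⟨hgsub, fun z hz => ?_⟩
    obtain ⟨a, ha, rfl⟩ := mem_toZFSet_iff.1 hz
    refine ⟨(G a).toZFSet, pair_mem_rs.2 ⟨ha, hG1 a ha, rfl⟩, fun y hy => ?_⟩
    obtain ⟨a', -, b, -, hb, h⟩ := mem_rs.1 hy
    obtain ⟨h1, h2⟩ := ZFSet.pair_injective h
    rw [h2, hb, toZFSet_injective h1]
  have hjg : ∀ (a : Ordinal.{u}) (x : ZFSet.{u}), ZFSet.pair a.toZFSet x ∈ j g →
      x = (Jo j (G a)).toZFSet ∧ a < ν := by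
    intro a x hx
    have h1 := (he.trl (loc_func 0 1 2) [ν.toZFSet, α.toZFSet, g] (by
      simp only [List.mem_cons, List.not_mem_nil, or_false, forall_eq_or_imp, forall_eq]
      exact ⟨Gd.ord.2 hνη, Gd.ord.2 hαη, hgη⟩)).1 (by simpa using hgfun)
    have h2 : ZFSet.IsFunc (j ν.toZFSet) (j α.toZFSet) (j g) := by simpa using h1
    have h3 : j ν.toZFSet = ν.toZFSet := he.fix ν hcon
    rw [h3] at h2
    have h4 := (ZFSet.pair_mem_prod.1 (h2.1 hx)).1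
    rw [toZFSet_mem_toZFSet_iff] at h4
    refine ⟨?_, h4⟩
    obtain ⟨w, hw, hu⟩ := h2.2 a.toZFSet (toZFSet_mem_toZFSet_iff.2 h4)
    have h5 : ZFSet.pair a.toZFSet (Jo j (G a)).toZFSet ∈ j g := by
      have h6 := (he.opair (h4.trans hνη) ((hG1 a h4).trans hαη) hgη).1
        (pair_mem_rs.2 ⟨h4, hG1 a h4, rfl⟩)
      rwa [he.Jo_fix (h4.trans hcon)] at h6
    rw [hu x hx, hu _ h5]
  -- the supremum
  have hKl : IsSuccLimit K.ord := Cardinal.isSuccLimit_ord hS.kreg.aleph0_le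
  set r : Ordinal.{u} := ⨆ t : K.ord.ToType, succ (Jo j (Ordinal.ToType.mk.symm t).1) with hr
  have hr1 : ∀ x < K.ord, Jo j x < r := by
    intro x hx
    have h1 := Ordinal.le_iSup (fun t : K.ord.ToType =>
      succ (Jo j (Ordinal.ToType.mk.symm t).1)) (Ordinal.ToType.mk ⟨x, hx⟩)
    refine lt_of_lt_of_le (lt_succ _) (le_trans (le_of_eq ?_) h1)
    rw [OrderIso.symm_apply_apply]
  have hr2 : ∀ y < r, ∃ x < K.ord, y < Jo j x := by
    intro y hy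
    obtain ⟨t, ht⟩ := (Ordinal.lt_iSup_iff).1 hy
    have hx := (Ordinal.ToType.mk.symm t).2
    refine ⟨succ (Ordinal.ToType.mk.symm t).1, hKl.succ_lt hx, ?_⟩
    rw [he.Jo_succ (lt_trans hx hS.kη)]
    exact ht
  have hrθ : r < θ := by
    refine lt_of_le_of_lt ?_ (he.Jo_lt hS.kη)
    refine Ordinal.iSup_le fun t => ?_
    have hx := (Ordinal.ToType.mk.symm t).2
    exact succ_le_of_lt ((he.lt_iff (lt_trans hx hS.kη) hS.kη).2 hx)
  have hsol := hXF δ η θ j M K γ f hS r hr1 hr2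
  -- the parameters
  have hPη : ZFSet.prod δ.toZFSet γ.toZFSet ∈ V_ η :=
    he.gd.prod (Gd.ord.2 hδη) (Gd.ord.2 hS.γη)
  have htr := (he.trl_ex (loc_RR hLB) [M.ord.toZFSet, δ.toZFSet, γ.toZFSet, f, g,
    ZFSet.prod δ.toZFSet γ.toZFSet] (by
      simp only [List.mem_cons, List.not_mem_nil, or_false, forall_eq_or_imp, forall_eq]
      exact ⟨Gd.ord.2 hMη, Gd.ord.2 hδη, Gd.ord.2 hS.γη, hS.fη, hgη, hPη⟩)).2 ?_
  · obtain ⟨ρ, -, ⟨t, ht, h, -, h1, h2⟩, h3⟩ := htr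
    simp only [sv_cons_zero, sv_cons_succ] at ht h1 h2 h3
    obtain ⟨τ, hτ, rfl⟩ := mem_toZFSet_iff.1 ht
    -- the set
    set X : Set Ordinal.{u} := {i | ρ.IsOrdinal ∧ Pos M.ord ρ.rank (fib f i)} with hX
    have hXds : DS X := (DO.cst ρ.IsOrdinal).and (ds_pos hDA hS.od M.ord ρ.rank)
    have hPP : ∀ i : Ordinal.{u}, PP M.ord.toZFSet ρ f i.toZFSet ↔ i ∈ X := by
      intro i
      unfold PP
      rw [rank_toZFSet]
      exact ⟨fun h => ⟨h.2.1, h.2.2⟩, fun h => ⟨ZFSet.isOrdinal_toZFSet _, h.1, h.2⟩⟩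
    refine hα X hXds ?_ ?_
    · intro b hb
      obtain ⟨a, ha, hba⟩ := hG2 b hb
      refine ⟨G a, hG1 a ha, hba, ?_⟩
      rw [← hPP]
      exact h3 _ (toZFSet_mem_toZFSet_iff.2 (lt_trans ha hcon)) _
        (toZFSet_mem_toZFSet_iff.2 (lt_of_lt_of_le (hG1 a ha) hαγ))
        (pair_mem_rs.2 ⟨ha, hG1 a ha, rfl⟩)
    · classical
      refine ⟨τ, lt_of_lt_of_le hτ ?_, fun a => if hh : ∃ i < γ,
        ZFSet.pair a.toZFSet i.toZFSet ∈ h then Classical.choose hh else 0, ?_⟩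
      · have h4 : δ.card.ord = δ := by
          rw [← hS.dreg, Cardinal.card_ord]
        rw [← h4]
        exact Cardinal.ord_le_ord.2 (Ordinal.card_le_card hδα.le)
      · rintro i ⟨hiX, hiα⟩
        have hiγ : i < γ := lt_of_lt_of_le hiα hαγ
        obtain ⟨x, hx, hxi⟩ := h1 _ (toZFSet_mem_toZFSet_iff.2 hiγ) ((hPP i).2 hiX)
        obtain ⟨a, ha, rfl⟩ := mem_toZFSet_iff.1 hx
        refine ⟨a, ha, ?_⟩
        have hh : ∃ i < γ, ZFSet.pair a.toZFSet i.toZFSet ∈ h := ⟨i, hiγ, hxi⟩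
        dsimp only
        rw [dif_pos hh]
        obtain ⟨h5, h6⟩ := Classical.choose_spec hh
        exact toZFSet_injective (h2 _ hx _ (toZFSet_mem_toZFSet_iff.2 h5) _
          (toZFSet_mem_toZFSet_iff.2 hiγ) h6 hxi)
  · have hjM : j M.ord.toZFSet = M.ord.toZFSet := he.fix _ hS.mlt
    have hjP : j (ZFSet.prod δ.toZFSet γ.toZFSet) =
        ZFSet.prod (Jo j δ).toZFSet (Jo j γ).toZFSet := by
      rw [he.prod (Gd.ord.2 hδη) (Gd.ord.2 hS.γη), he.ord hδη, he.ord hS.γη]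
    have hγδ : γ < Jo j δ := hS.γη.trans he.Jo_crit
    have hPP : ∀ i : Ordinal.{u}, PP M.ord.toZFSet r.toZFSet (j f) i.toZFSet ↔
        Pos M.ord r (fib (j f) i) := by
      intro i
      unfold PP
      rw [rank_toZFSet, rank_toZFSet]
      exact ⟨fun h => h.2.2, fun h => ⟨ZFSet.isOrdinal_toZFSet _, ZFSet.isOrdinal_toZFSet _, h⟩⟩
    refine ⟨r.toZFSet, Gd.ord.2 hrθ, ?_⟩
    show RR r.toZFSet (sv [j M.ord.toZFSet, j δ.toZFSet, j γ.toZFSet, j f, j g,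
      j (ZFSet.prod δ.toZFSet γ.toZFSet)])
    rw [hjM, hjP, he.ord hδη, he.ord hS.γη]
    refine ⟨⟨γ.toZFSet, toZFSet_mem_toZFSet_iff.2 hγδ, rs γ (Jo j γ) fun a b => b = Jo j a,
      ?_, ?_, ?_⟩, ?_⟩
    · intro p hp
      obtain ⟨a, ha, b, hb, -, rfl⟩ := mem_rs.1 hp
      simp only [sv_cons_zero, sv_cons_succ]
      rw [ZFSet.pair_mem_prod, toZFSet_mem_toZFSet_iff, toZFSet_mem_toZFSet_iff]
      exact ⟨ha.trans hγδ, hb⟩
    · intro x hx hp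
      simp only [sv_cons_zero, sv_cons_succ] at hx hp
      obtain ⟨i, hi, rfl⟩ := mem_toZFSet_iff.1 hx
      obtain ⟨i0, hi0, rfl⟩ := (hsol i hi).1 ((hPP i).1 hp)
      exact ⟨i0.toZFSet, toZFSet_mem_toZFSet_iff.2 hi0, pair_mem_rs.2 ⟨hi0, hi, rfl⟩⟩
    · intro x hx y hy z hz h1 h2
      obtain ⟨a, -, b, -, h3, h4⟩ := mem_rs.1 h1
      obtain ⟨a', -, b', -, h5, h6⟩ := mem_rs.1 h2
      obtain ⟨h7, h8⟩ := ZFSet.pair_injective h4
      obtain ⟨h9, h10⟩ := ZFSet.pair_injective h6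
      have : a = a' := toZFSet_injective (h7.symm.trans h9)
      rw [h8, h10, h3, h5, this]
    · intro x hx y hy h1
      simp only [sv_cons_zero, sv_cons_succ] at hx hy h1 ⊢
      obtain ⟨a, ha, rfl⟩ := mem_toZFSet_iff.1 hx
      obtain ⟨i, hi, rfl⟩ := mem_toZFSet_iff.1 hy
      obtain ⟨h2, h3⟩ := hjg a _ h1
      rw [hPP, hsol i hi]
      exact ⟨G a, lt_of_lt_of_le (hG1 a h3) hαγ, toZFSet_injective h2⟩

end Pool.Agent.H74.HD.XH
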