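import Pool.Agent.H7.HD.Tools2

/-!
# MP_e37c09_lc, module HA: a more flexible form of no splitting
-/

open Ordinal Cardinal Order Set
open scoped ZFSet

universe u

namespace Pool.Agent.H74.HD.HA

open _root_.HD

theorem ha_flex (h1 : T_VH.{u}) (h2 : T_DB.{u}) : T_HA.{u} := by
  intro δ μ κ hNS s I hs hI hpos hdisj
  obtain ⟨-, hlt, -, hfew⟩ := h1 I
  rcases hfew δ with h | hall
  · exact h
  · exfalso
    have hN : DO fun w : ℕ → Ordinal.{u} => nth I (w 0) (w 1) := h2 (fun a _ => a ∈ I) hI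
    refine hNS (fun b i => ∃ x, nth I i x ∧ s x b) ?_ ?_ ?_
    · refine DO.ex (R := fun x w => nth I (w 1) x ∧ s x (w 0)) ?_
      exact (DO.s2 (X := fun a b => nth I a b) hN 2 0).and (DO.s2 (X := fun a b => s a b) hs 0 1)
    · rintro b i i' ⟨x, hx, hsx⟩ ⟨y, hy, hsy⟩
      have hxy : x = y := hdisj x hx.1 y hy.1 b hsx hsy
      subst hxy
      rcases lt_trichotomy i i' with h | h | h
      · exact absurd ((hlt _ _ _ _ hx hy).1 h) (lt_irrefl _)
      · exact h
      · exact absurd ((hlt _ _ _ _ hy hx).1 h) (lt_irrefl _)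
    · intro i hi
      obtain ⟨x, hx⟩ := hall i hi
      exact (hpos x hx.1).mono fun b _ hb _ => ⟨x, hx, hb⟩

end Pool.Agent.H74.HD.HA
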