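import Pool.Agent.H7.HD.Tools2

/-!
# MP_e37c09_lc, module HD: at a regular cardinal an atom gives a normal measure
-/

open Ordinal Cardinal Order Set
open scoped ZFSet

universe u

namespace Pool.Agent.H74.HD.HD

open _root_.HD

theorem hd_normal (h1 : T_VD.{u}) : T_HD.{u} := by
  intro en μ K c hK hK0 hat
  refine ⟨?_, hat.pos, hat.ult, ?_⟩
  · rw [hK.cof_ord]
    exact hK0
  · intro e he hpos
    classical
    let h : Ordinal.{u} → Ordinal.{u} := fun b =>
      if hb : ∃ a < b, b ∉ E2 en e a then Classical.choose hb else 0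
    have hspec : ∀ b, (∃ a < b, b ∉ E2 en e a) → h b < b ∧ b ∉ E2 en e (h b) := by
      intro b hb
      have : h b = Classical.choose hb := dif_pos hb
      rw [this]
      exact Classical.choose_spec hb
    obtain ⟨a, ha, hp⟩ := h1 μ K hK hK0 _ h hpos (fun b hb _ _ => (hspec b hb.2).1)
    refine he a ha (hp.mono ?_)
    rintro b _ ⟨⟨hb1, hb2⟩, rfl⟩ _
    exact ⟨hb1, (hspec b hb2).2⟩

end Pool.Agent.H74.HD.HD
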