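import Pool.Agent.H7.HD.Targets5

/-!
# MP_e37c09_lc, module CF: equality of the cofinalities
-/

set_option autoImplicit false

open Ordinal Cardinal Order Set
open scoped ZFSet

universe u

namespace Pool.Agent.H74.HD.CF

open _root_.HD

theorem clb_univ {ρ : Ordinal.{u}} (hρ : IsSuccLimit ρ) : Clb ρ univ :=
  ⟨fun a ha => ⟨succ a, hρ.succ_lt ha, lt_succ a, mem_univ _⟩, fun _ _ _ _ => mem_univ _⟩

theorem cf (hBD : T_BD.{u}) : T_CF.{u} := by
  intro en hen M κ lam c x hlc hat hF hκ hκl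
  have hlim : IsSuccLimit lam := Ordinal.one_lt_cof_iff.1 (Cardinal.one_lt_aleph0.trans hlc)
  have hbd : ∀ β, os lam {i | x β i} ∈ PkHOD κ lam → ∃ b < κ, ∀ a < κ, x β a → a < b := by
    intro β hβ
    obtain ⟨b, hb, h⟩ := hBD κ lam _ hκ hβ
    exact ⟨b, hb, fun a ha hx => h a ha (ord_mem_os.2 ⟨ha.trans hκl, hx⟩)⟩
  apply le_antisymm
  · obtain ⟨B, hB, -, e, he⟩ := HD.All.vg lam hlim
    classical
    choose! g hg1 hg2 using hbd
    have hCF : Pool.Agent.H54.HD.LA.CF lam.cof.ord κ := by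
      refine ⟨fun a => if os lam {i | x (e a) i} ∈ PkHOD κ lam then g (e a) else 0, ?_, ?_⟩
      · intro a _
        show (if os lam {i | x (e a) i} ∈ PkHOD κ lam then g (e a) else 0) < κ
        split_ifs with h
        · exact hg1 _ h
        · have := hκ.1.bot_lt
          rwa [Ordinal.bot_eq_zero] at this
      · intro b hb
        have hnull := null_union HD.All.va hlc hF.small (hF.fine b (hb.trans hκl))
        obtain ⟨β, hβ, hβB, ⟨hβE, hβn⟩, -⟩ := pos_diff HD.All.va hlc hat.pos hnull B hB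
        have h1 : os lam {i | x β i} ∈ PkHOD κ lam := by
          by_contra h
          exact hβn (Or.inl ⟨hβE, h⟩)
        have h2 : x β b := by
          by_contra h
          exact hβn (Or.inr ⟨hβE, h⟩)
        obtain ⟨a, ha, rfl⟩ := he β hβB
        refine ⟨a, ha, ?_⟩
        show b ≤ if os lam {i | x (e a) i} ∈ PkHOD κ lam then g (e a) else 0
        rw [if_pos h1]
        exact (hg2 _ h1 b hb h2).le
    exact Cardinal.ord_le_ord.1 (Pool.Agent.H54.HD.LA.cf_le hCF)
  · by_contra hlt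
    push Not at hlt
    obtain ⟨b, hb1, hb2⟩ := Pool.Agent.H54.HD.LA.cf_self κ
    have hcard : (κ.cof.ord).card < lam.cof := by rwa [Cardinal.card_ord]
    have hU := HD.All.va M.ord lam hlc κ.cof.ord hcard
      (fun i => {β | β ∈ E en c ∧ ¬ x β (b i)}) (fun i hi => hF.fine (b i) ((hb1 i hi).trans hκl))
    have hnull := null_union HD.All.va hlc hF.small hU
    obtain ⟨β, hβ, -, ⟨hβE, hβn⟩, -⟩ :=
      pos_diff HD.All.va hlc hat.pos hnull univ (clb_univ hlim)
    have h1 : os lam {i | x β i} ∈ PkHOD κ lam := by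
      by_contra h
      exact hβn (Or.inl ⟨hβE, h⟩)
    have h2 : ∀ i < κ.cof.ord, x β (b i) := by
      intro i hi
      by_contra h
      exact hβn (Or.inr ⟨i, hi, hβE, h⟩)
    obtain ⟨b0, hb0, h3⟩ := hbd β h1
    obtain ⟨i, hi, h4⟩ := hb2 b0 hb0
    exact absurd (h3 (b i) (hb1 i hi) (h2 i hi)) (not_lt.2 h4)

end Pool.Agent.H74.HD.CF
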