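import Pool.Agent.H7.HD.Targets8

/-!
# Weakly normal ultrafilters from strong compactness
-/

open Ordinal Cardinal Order Set
open scoped ZFSet

universe u

namespace Pool.Agent.H74.HD.SW

open _root_.HD

/-- the supremum of the successors of the elements of `s` below `ν` -/
noncomputable def e (s : Set Ordinal.{u}) (ν : Ordinal.{u}) : Ordinal.{u} :=
  sSup ((· + 1) '' (s ∩ Iio ν))

theorem e_le (s : Set Ordinal.{u}) (ν : Ordinal.{u}) : e s ν ≤ ν := by
  refine csSup_le' ?_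
  rintro _ ⟨x, hx, rfl⟩
  exact Order.add_one_le_of_lt hx.2

theorem lt_e {s : Set Ordinal.{u}} {ν x : Ordinal.{u}} (hx : x ∈ s) (hν : x < ν) : x < e s ν := by
  have h1 : x + 1 ≤ e s ν := by
    refine le_csSup ⟨ν, ?_⟩ ⟨x, ⟨hx, hν⟩, rfl⟩
    rintro _ ⟨y, hy, rfl⟩
    exact Order.add_one_le_of_lt hy.2
  exact lt_of_lt_of_le (_root_.lt_add_one x) h1

theorem e_lt {s : Set Ordinal.{u}} {ν : Ordinal.{u}} {D : Cardinal.{u}}
    (hs : #s < Cardinal.lift.{u + 1} D) (hD : D ≤ ν.cof) : e s ν < ν := by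
  refine sSup_add_one_lt_of_lt_cof ?_ fun i hi => hi.2
  rw [← lift_cof]
  exact (Cardinal.mk_le_mk_of_subset inter_subset_left).trans_lt
    (hs.trans_le (Cardinal.lift_le.2 hD))

theorem wf {U : Ultrafilter (Set Ordinal.{u})} {D : Cardinal.{u}} (hD : ℵ₀ < D)
    (hU : ∀ τ < D.ord, ∀ X : Ordinal.{u} → Set (Set Ordinal.{u}), (∀ i < τ, X i ∈ U) →
      {s | ∀ i < τ, s ∈ X i} ∈ U) :
    WellFounded (fun g f : Set Ordinal.{u} → Ordinal.{u} => {s | g s < f s} ∈ U) := by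
  rw [wellFounded_iff_isEmpty_descending_chain]
  refine ⟨fun F => ?_⟩
  obtain ⟨f, hf⟩ := F
  have h1 := hU ω (by
    rw [← ord_aleph0]
    exact ord_lt_ord.2 hD) (fun i => {s | ∀ n : ℕ, (n : Ordinal.{u}) = i → f (n + 1) s < f n s})
    (fun i hi => by
      obtain ⟨m, rfl⟩ := lt_omega0.1 hi
      refine U.mem_of_superset (hf m) fun s hs n hn => ?_
      rw [Nat.cast_injective hn]
      exact hs)
  obtain ⟨s, hs⟩ := U.nonempty_of_mem h1
  have h2 := wellFounded_iff_isEmpty_descending_chain.1 (Ordinal.lt_wf.{u})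
  exact h2.false ⟨fun n => f n s, fun n => hs n (natCast_lt_omega0 n) n rfl⟩

theorem sw : T_SW.{u} := by
  intro D hD κ hκ
  obtain ⟨hDr, hD0, hDU⟩ := hD
  obtain ⟨U, hU1, hU2, hU3⟩ := hDU κ
  have hκlim : IsSuccLimit κ :=
    Ordinal.one_lt_cof_iff.1 (Cardinal.one_lt_aleph0.trans (hD0.trans_le hκ))
  let good : Set (Set Ordinal.{u} → Ordinal.{u}) :=
    {f | {s | f s < κ} ∈ U ∧ ∀ ξ < κ, {s | ξ < f s} ∈ U}
  have hgood : ∀ f, f ∈ good ↔ {s | f s < κ} ∈ U ∧ ∀ ξ < κ, {s | ξ < f s} ∈ U :=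
    fun f => Iff.rfl
  have hne : good.Nonempty := by
    refine ⟨fun s => e s κ, ?_, fun ξ hξ => ?_⟩
    · exact U.mem_of_superset hU1 fun s hs => e_lt hs.2 hκ
    · exact U.mem_of_superset (hU2 ξ hξ) fun s hs => lt_e hs hξ
  have hwf := wf hD0 hU3
  obtain ⟨f, hf, hmin⟩ := hwf.has_min good hne
  obtain ⟨hf1, hf2⟩ := (hgood f).1 hf
  have hwn : ∀ g : Ordinal.{u} → Ordinal.{u}, {ν | g ν < ν} ∈ U.map f →
      ∃ ξ < κ, {ν | g ν ≤ ξ} ∈ U.map f := by
    intro g hg
    rw [Ultrafilter.mem_map] at hg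
    have h1 : (fun s => g (f s)) ∉ good := fun h => hmin _ h hg
    rw [hgood, not_and_or] at h1
    rcases h1 with h1 | h1
    · exfalso
      apply h1
      filter_upwards [hg, hf1] with s h2 h3
      exact lt_trans h2 h3
    · push Not at h1
      obtain ⟨ξ, hξ, h2⟩ := h1
      refine ⟨ξ, hξ, ?_⟩
      rw [Ultrafilter.mem_map]
      have h3 := Ultrafilter.compl_mem_iff_notMem.2 h2
      filter_upwards [h3] with s hs
      have h4 : ¬ ξ < g (f s) := hs
      exact not_lt.1 h4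
  refine ⟨U.map f, ⟨?_, fun ξ hξ => ?_, ?_, ?_, fun τ hτ X hX => ?_, hwn⟩⟩
  · rw [Ultrafilter.mem_map]
    exact hf1
  · rw [Ultrafilter.mem_map]
    exact hf2 ξ hξ
  · by_contra hc
    have hc' := Ultrafilter.compl_mem_iff_notMem.2 hc
    have h0 : {ν : Ordinal.{u} | 0 < ν} ∈ U.map f := by
      rw [Ultrafilter.mem_map]
      exact hf2 0 hκlim.bot_lt
    classical
    let g : Ordinal.{u} → Ordinal.{u} := fun ν => if h : ∃ b, ν = b + 1 then h.choose else 0
    have hgs : ∀ ν : Ordinal.{u}, 0 < ν → ¬ IsSuccLimit ν → ν = g ν + 1 := by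
      intro ν hν hl
      have hex : ∃ b, ν = b + 1 := by
        rcases zero_or_succ_or_isSuccLimit ν with h | ⟨b, hb⟩ | h
        · exact absurd h hν.ne'
        · exact ⟨b, hb.symm⟩
        · exact absurd h hl
      show ν = (if h : ∃ b, ν = b + 1 then h.choose else 0) + 1
      rw [dif_pos hex]
      exact hex.choose_spec
    have h1 : {ν | g ν < ν} ∈ U.map f := by
      filter_upwards [hc', h0] with ν h2 h3
      have := hgs ν h3 h2
      calc g ν < g ν + 1 := _root_.lt_add_one _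
        _ = ν := this.symm
    obtain ⟨ξ, hξ, h2⟩ := hwn g h1
    have h3 : {ν | ξ + 1 < ν} ∈ U.map f := by
      rw [Ultrafilter.mem_map]
      exact hf2 _ (hκlim.add_one_lt hξ)
    obtain ⟨ν, ⟨⟨h4, h5⟩, h6⟩, h7⟩ := (U.map f).nonempty_of_mem
      (Filter.inter_mem (Filter.inter_mem (Filter.inter_mem h2 h3) hc') h0)
    have h8 := hgs ν h7 h6
    have h9 : ν ≤ ξ + 1 := by
      rw [h8]
      exact add_le_add_left h4 1
    exact absurd h5 (not_lt.2 h9)
  · rw [Ultrafilter.mem_map]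
    by_cases h : {s | e s (f s) < f s} ∈ U
    · exfalso
      refine hmin (fun s => e s (f s)) ⟨?_, fun ξ hξ => ?_⟩ h
      · filter_upwards [h, hf1] with s h1 h2
        exact lt_trans h1 h2
      · filter_upwards [hU2 ξ hξ, hf2 ξ hξ] with s h1 h2
        exact lt_e h1 h2
    · have h' := Ultrafilter.compl_mem_iff_notMem.2 h
      filter_upwards [h', hU1] with s h1 h2
      by_contra h3
      exact h1 (e_lt h2.2 (not_lt.1 h3))
  · rw [Ultrafilter.mem_map]
    exact hU3 τ hτ (fun i => f ⁻¹' X i) fun i hi => Ultrafilter.mem_map.1 (hX i hi)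

end Pool.Agent.H74.HD.SW
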