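import Pool.Agent.H7.HD.Targets4

/-!
# MP_e37c09_lc, module ZG: definable stationary sets are stationary in the sense of HOD below
almost all points of cofinality `N`
-/

set_option autoImplicit false

open Ordinal Cardinal Order Set
open scoped ZFSet

universe u

namespace Pool.Agent.H74.HD.ZG

open _root_.HD

/-- renaming which inserts `k` variables after the variable `0` -/
def sh (k : ℕ) : ℕ → ℕ
  | 0 => 0
  | n + 1 => n + 1 + k

/-- being closed unbounded is definable for definable families of sets -/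
theorem do_clb {X : Ordinal.{u} → (ℕ → Ordinal.{u}) → Prop}
    (hX : DO fun w => X (w 0) (fun n => w (n + 1))) (i : ℕ) :
    DO fun w => Clb (w i) {a | X a w} := by
  refine (DO.and (A := fun w => ∀ a < w i, ∃ b < w i, a < b ∧ X b w)
    (B := fun w => ∀ x < w i, 0 < x → (∀ y < x, ∃ z < x, y < z ∧ X z w) → X x w) ?_ ?_).congr ?_
  · refine DO.allLt (R := fun a w => ∃ b < w i, a < b ∧ X b w) i ?_
    refine DO.exLt (R := fun b w => w 0 < b ∧ X b (fun n => w (n + 1))) (i + 1) ?_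
    exact (DO.lt 1 0).and (hX.ren (sh 1))
  · refine DO.allLt (R := fun x w => 0 < x → (∀ y < x, ∃ z < x, y < z ∧ X z w) → X x w) i ?_
    refine (DO.gtc 0 0).imp (DO.imp ?_ hX)
    refine DO.allLt (R := fun y w => ∃ z < w 0, y < z ∧ X z (fun n => w (n + 1))) 0 ?_
    refine DO.exLt (R := fun z w => w 0 < z ∧ X z (fun n => w (n + 2))) 1 ?_
    exact (DO.lt 1 0).and (hX.ren (sh 2))
  · intro w
    constructor
    · rintro ⟨h1, h2⟩
      exact ⟨h1, h2⟩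
    · rintro ⟨h1, h2⟩
      exact ⟨h1, h2⟩

theorem memE {en : Ordinal.{u} → ZFSet.{u}}
    (h : DO.{u} fun w => w 0 ∈ E en (w 1)) (c : Ordinal.{u}) (i : ℕ) :
    DO.{u} fun w => w i ∈ E en c :=
  DO.sub (R := fun x w => w i ∈ E en x) c
    (DO.s2 (X := fun a b => a ∈ E en b) h (i + 1) 0)

/-- `Clb α X` only depends on the part of `X` below `α` -/
theorem clb_congr {α : Ordinal.{u}} {X Y : Set Ordinal.{u}} (h : ∀ b < α, b ∈ X ↔ b ∈ Y)
    (hX : Clb α X) : Clb α Y := by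
  refine ⟨fun a ha => ?_, fun x hx h0 hy => ?_⟩
  · obtain ⟨b, hb, h1, h2⟩ := hX.unb a ha
    exact ⟨b, hb, h1, (h b hb).1 h2⟩
  · refine (h x hx).1 (hX.cls x hx h0 fun y hyx => ?_)
    obtain ⟨z, hz, h1, h2⟩ := hy y hyx
    exact ⟨z, hz, h1, (h z (hz.trans hx)).2 h2⟩

theorem clb_Ioi {K : Cardinal.{u}} (hK : ℵ₀ ≤ K) {β : Ordinal.{u}} (hβ : β < K.ord) :
    Clb K.ord (Ioi β) := by
  have hl := Cardinal.isSuccLimit_ord hK
  refine ⟨fun a ha => ?_, fun x _ h0 hy => ?_⟩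
  · refine ⟨succ (max a β), hl.succ_lt (max_lt ha hβ), ?_, ?_⟩
    · exact lt_of_le_of_lt (le_max_left a β) (lt_succ _)
    · exact lt_of_le_of_lt (le_max_right a β) (lt_succ _)
  · obtain ⟨z, hz, _, h2⟩ := hy 0 h0
    exact lt_trans h2 hz

theorem zg : T_ZG.{u} := by
  intro D N K hD hN hND hK hDK S hS hst
  obtain ⟨en, hen⟩ := HD.All.en.{u}
  obtain ⟨hE1, hE2, hE3, hE4⟩ := HD.All.ea en hen
  have hK0 : ℵ₀ < K := hD.2.2.1.trans hDK
  set T : Set Ordinal.{u} := {α | ∃ d, HOD d ∧ Clb α {b | b.toZFSet ∈ d} ∧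
      ∀ b < α, b.toZFSet ∈ d → b ∉ S} with hT
  have hTc : ∀ α, α ∈ T ↔ ∃ c, Clb α (E en c) ∧ ∀ b < α, b ∈ E en c → b ∉ S := by
    intro α
    constructor
    · rintro ⟨d, hd, h1, h2⟩
      obtain ⟨c, rfl⟩ := (hen.od d).1 hd.od
      exact ⟨c, h1, h2⟩
    · rintro ⟨c, h1, h2⟩
      refine ⟨os α (E en c), hod_os (memE hE1 c 0) α, clb_congr (fun b hb => ?_) h1,
        fun b hb h => h2 b hb (ord_mem_os.1 h).2⟩
      constructor
      · intro h
        exact ord_mem_os.2 ⟨hb, h⟩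
      · intro h
        exact (ord_mem_os.1 h).2
  have hTD : DS T := by
    refine DO.congr (A := fun w => ∃ c, Clb (w 0) (E en c) ∧ ∀ b < w 0, b ∈ E en c → b ∉ S) ?_
      fun w => hTc (w 0)
    refine DO.ex (R := fun c w => Clb (w 0) (E en c) ∧ ∀ b < w 0, b ∈ E en c → b ∉ S) ?_
    refine DO.and (do_clb (X := fun a w => a ∈ E en (w 0)) hE1 1) ?_
    refine DO.allLt (R := fun b w => b ∈ E en (w 0) → b ∉ S) 1 ?_
    exact hE1.imp (DO.s1 (X := fun a => a ∈ S) hS 0).not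
  intro hpos
  have hcof : K.ord.cof = K := hK.cof_ord
  have hns : NS D.ord N.ord K.ord := hD.2.2.2 N hN hND K.ord (by rw [hcof]; exact hDK.le)
  obtain ⟨d, hdT, hat⟩ := HD.All.hb en hen D N K hD.1 hD.2.1 hD.2.2.1 hN hND hK hDK
    (HD.All.ha _ _ _ hns) T hTD hpos
  let R : Ordinal.{u} → Ordinal.{u} → Prop := fun α e =>
    Clb α (E2 en e 0) ∧ ∀ b < α, b ∈ E2 en e 0 → b ∉ S
  have hR : DR R := by
    have hX : DO.{u} fun w => w 0 ∈ E2 en (w 2) 0 :=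
      DO.sub (R := fun x w => w 0 ∈ E2 en (w 2) x) 0
        (DO.s3 (X := fun b a e => b ∈ E2 en e a) hE2 1 0 3)
    refine DO.and (do_clb (X := fun a w => a ∈ E2 en (w 1) 0) hX 0) ?_
    refine DO.allLt (R := fun b w => b ∈ E2 en (w 1) 0 → b ∉ S) 0 ?_
    exact hX.imp (DO.s1 (X := fun a => a ∈ S) hS 0).not
  obtain ⟨e', he'⟩ := HD.All.hg en N.ord K d hen hK hK0 hat R hR
  have hA := pos_diff HD.All.va (by rw [hcof]; exact hK0) hat.pos he'
  -- good points above each ordinal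
  have key : ∀ β < K.ord, ∃ α < K.ord, β < α ∧ Clb α (E2 en e' 0) ∧
      ∀ b < α, b ∈ E2 en e' 0 → b ∉ S := by
    intro β hβ
    obtain ⟨α, hαK, hβα, ⟨hαd, hbad⟩, -⟩ := hA (Ioi β) (clb_Ioi hK0.le hβ)
    have h0 : 0 < α := lt_of_le_of_lt (zero_le (a := β)) hβα
    have hex : ∃ e, R α e := by
      obtain ⟨c, h1, h2⟩ := (hTc α).1 (hdT hαd)
      obtain ⟨e, he⟩ := hE4 (fun _ b => b ∈ E en c) (memE hE1 c 1) α
      refine ⟨e, clb_congr (fun b hb => ?_) h1, fun b hb h => h2 b hb ((he 0 b).1 h).2.2⟩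
      rw [he 0 b]
      exact ⟨fun h => ⟨h0, hb, h⟩, fun h => h.2.2⟩
    have hgood : ∃ e, R α e ∧ ∀ a < α, ∀ b < α, (b ∈ E2 en e a ↔ b ∈ E2 en e' a) := by
      by_contra hcon
      exact hbad ⟨hαd, hex, hcon⟩
    obtain ⟨e, ⟨h1, h2⟩, h3⟩ := hgood
    refine ⟨α, hαK, hβα, clb_congr (fun b hb => h3 0 h0 b hb) h1, fun b hb h => ?_⟩
    exact h2 b hb ((h3 0 h0 b hb).2 h)
  have hclub : Clb K.ord (E2 en e' 0) := by
    refine ⟨fun a ha => ?_, fun x hx h0 hy => ?_⟩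
    · obtain ⟨α, hα, haα, h1, -⟩ := key a ha
      obtain ⟨b, hb, h2, h3⟩ := h1.unb a haα
      exact ⟨b, hb.trans hα, h2, h3⟩
    · obtain ⟨α, hα, hxα, h1, -⟩ := key x hx
      exact h1.cls x hxα h0 hy
  obtain ⟨b, hb, hbX, hbS⟩ := hst _ hclub
  obtain ⟨α, hα, hbα, -, h2⟩ := key b hb
  exact h2 b hbα hbX hbS

end Pool.Agent.H74.HD.ZG
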