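import Pool.Agent.H7.HD.Targets8

/-!
# The HOD Hypothesis in the first case
-/

open Ordinal Cardinal Order Set
open scoped ZFSet

universe u

namespace Pool.Agent.H74.HD.HY

open _root_.HD

theorem hy (hUL : T_UL.{u}) : T_HY.{u} := by
  intro δ hA l
  set o : Ordinal.{u} := max l δ + ω with ho
  set γ : Cardinal.{u} := ℵ_ o with hγ
  have hlim : IsSuccLimit o := isSuccLimit_add _ isSuccLimit_omega0
  have hγ0 : ℵ₀ ≤ γ := aleph0_le_aleph o
  have hord : γ.ord = ω_ o := ord_aleph o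
  have hlt : max l δ < γ.ord := by
    rw [hord]
    exact lt_of_lt_of_le (lt_add_of_pos_right _ omega0_pos) (le_omega_self o)
  have hnr : ¬ γ.IsRegular := by
    intro h
    have h1 := h.le_cof_ord
    rw [hord, cof_omega hlim, ho, cof_add _ omega0_ne_zero, cof_omega0] at h1
    have h2 : ℵ₀ < γ := aleph0_lt_aleph.2 hlim.bot_lt
    exact absurd h1 (not_le.2 h2)
  obtain ⟨-, hon⟩ := hA γ hγ0 hnr (lt_of_le_of_lt (le_max_right _ _) hlt)
  have hreg : (succ γ).IsRegular := isRegular_succ hγ0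
  refine ⟨succ γ, ?_, hreg, lt_of_le_of_lt hγ0 (lt_succ γ), ?_⟩
  · exact (lt_of_le_of_lt (le_max_left _ _) hlt).trans (ord_lt_ord.2 (lt_succ γ))
  · rintro ⟨-, -, κ, hκ0, hκ, -, hn⟩
    exact hn (hUL γ hγ0 hon κ hκ0 hκ)

end Pool.Agent.H74.HD.HY
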