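import Pool.Agent.H7.HD.Targets4

/-!
# MP_e37c09_lc, module ZD: the trace of the club filter on HOD
-/

set_option autoImplicit false

open Ordinal Cardinal Order Set
open scoped ZFSet

universe u

namespace Pool.Agent.H74.HD.ZD

open _root_.HD

theorem memE {en : Ordinal.{u} → ZFSet.{u}}
    (h : DO.{u} fun w => w 0 ∈ E en (w 1)) (c : Ordinal.{u}) (i : ℕ) :
    DO.{u} fun w => w i ∈ E en c :=
  DO.sub (R := fun x w => w i ∈ E en x) c
    (DO.s2 (X := fun a b => a ∈ E en b) h (i + 1) 0)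

theorem mem_uz {en : Ordinal.{u} → ZFSet.{u}} {μ α c : Ordinal.{u}} {x : ZFSet.{u}} :
    x ∈ uz en μ α c ↔ x ⊆ α.toZFSet ∧ OD x ∧ ¬ Pos μ α (E en c \ {a | a.toZFSet ∈ x}) := by
  unfold uz
  rw [ZFSet.mem_sep, ZFSet.mem_powerset]

theorem zd (hZA : T_ZA.{u}) (hZB : T_ZB.{u}) (hZC : T_ZC.{u}) : T_ZD.{u} := by
  intro D M hD hM hMD α hDα
  obtain ⟨en, hen⟩ := HD.All.en.{u}
  obtain ⟨hE1, -, -, -⟩ := HD.All.ea en hen
  have hcof : ℵ₀ < α.cof := hD.2.2.1.trans hDα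
  have hns : NS D.ord M.ord α := hD.2.2.2 M hM hMD α hDα.le
  have hnsx := HD.All.ha _ _ _ hns
  obtain ⟨I, hI, hIf, hIa, hInull⟩ := hZA en hen D M α hD.1 hD.2.2.1 hM hMD hDα hnsx
    (fun X hX hp => HD.All.hb2 en hen D M α hD.1 hD.2.1 hD.2.2.1 hM hMD hDα hnsx X hX hp)
  obtain ⟨τ, hτ, F, y, hF, hfun, h1, h2⟩ := hZB en hen D M.ord α I hI hIf
  have hnull : ∀ X : Set Ordinal.{u}, (∀ b < α, b ∉ X) → ¬ Pos M.ord α X := by
    intro X hX hp
    exact hInull (hp.mono fun b hb hbX _ => absurd hbX (hX b hb))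
  refine ⟨τ, hτ, F, y, hF, hfun, ?_, ?_, ?_⟩
  · intro i hi U hU
    obtain ⟨c, hc, rfl⟩ := h1 i hi U hU
    exact HD.All.ua en hen M.ord α c hcof (hIa c hc)
  · intro x hx hxs
    constructor
    · rintro ⟨C, hC, hCx⟩ i hi U hU
      obtain ⟨c, hc, rfl⟩ := h1 i hi U hU
      refine mem_uz.2 ⟨hxs, hx.od, fun hp => ?_⟩
      obtain ⟨b, hb, hbC, ⟨_, hbx⟩, hcf⟩ := hp C hC
      exact hbx (hCx b hb hbC hcf)
    · intro h
      have hall : ∀ c ∈ I, x ∈ uz en M.ord α c := by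
        intro c hc
        obtain ⟨i, hi, hp⟩ := h2 c hc
        exact h i hi _ hp
      obtain ⟨τ', hτ', e, he⟩ := hIf
      have hcard : τ'.card < α.cof := (Cardinal.lt_ord.1 hτ').trans hDα
      have hU := HD.All.va M.ord α hcof τ' hcard
        (fun i => {b | e i ∈ I ∧ b ∈ E en (e i) ∧ b.toZFSet ∉ x}) (fun i _ => by
          by_cases hi : e i ∈ I
          · intro hp
            exact (mem_uz.1 (hall _ hi)).2.2 (hp.mono fun b _ hb _ => ⟨hb.2.1, hb.2.2⟩)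
          · exact hnull _ fun b _ hb => hi hb.1)
      have hN : ¬ Pos M.ord α {b | b.toZFSet ∉ x} := by
        intro hp
        refine null_union HD.All.va hcof hInull hU (hp.mono fun b _ hb _ => ?_)
        by_cases hbI : ∀ c ∈ I, b ∉ E en c
        · exact Or.inl hbI
        · push Not at hbI
          obtain ⟨c, hc, hbc⟩ := hbI
          obtain ⟨i, hi, rfl⟩ := he c hc
          exact Or.inr ⟨i, hi, hc, hbc, hb⟩
      unfold Pos at hN
      push Not at hN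
      obtain ⟨C, hC, hCx⟩ := hN
      refine ⟨C, hC, fun b hb hbC hcf => ?_⟩
      by_contra hbx
      exact hCx b hb hbC hbx hcf
  · intro hα
    have hlim : IsSuccLimit α := Ordinal.one_lt_cof_iff.1 (Cardinal.one_lt_aleph0.trans hcof)
    obtain ⟨C, hC, hCI⟩ := hZC en hen D M α.cof hD hM hMD (Cardinal.isRegular_cof hlim) hDα I hIf
    rw [hα] at hC hCI
    refine ⟨C, hC, fun i hi U hU => ?_⟩
    obtain ⟨c, hc, rfl⟩ := h1 i hi U hU
    refine ⟨os α (E en c), mem_uz.2 ⟨fun z hz => ?_, od_os (memE hE1 c 0) α,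
      hnull _ fun b hb hbm => hbm.2 (ord_mem_os.2 ⟨hb, hbm.1⟩)⟩, fun x hx => ?_⟩
    · obtain ⟨b, hb, -, rfl⟩ := mem_os.1 hz
      exact toZFSet_mem_toZFSet_iff.2 hb
    · obtain ⟨β, hβ, h⟩ := hCI c hc x hx
      exact ⟨β, hβ, fun b hbC h1 h2 h3 h4 => h b hbC h1 h2 h3 (ord_mem_os.1 h4).2⟩

end Pool.Agent.H74.HD.ZD
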